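import Pool.Graph.R_pool_sql_team_seeded_620a6dc7.Helper716_Lang.Core

set_option autoImplicit false

namespace Pool.Agent.Results.MP_3d4eef_ag.SystemsRealClosed

/-- **Lang's conjecture for systems, over every real closed field, with weights.** Let `R` be a real
closed field and `K` a field extension of `R` of finite transcendence degree `n` in which `-1` is a
sum of squares (`K` need not be finitely generated over `R`). Let `w i > 0` be weights of finitely
many variables, indexed by `I`, and `f j`, `j ∈ J`, finitely many polynomials over `K`, `f j`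
weighted homogeneous of degree `d j > 0`. If `∑ j, d j ^ n < ∑ i, w i ^ n`, then the `f j` have a
common zero different from `0`. In particular (weights `1`, one form) `K` is a `C_n` field. -/
theorem result :
    (∀ (R : Type) [Field R] [LinearOrder R] [IsStrictOrderedRing R] [IsRealClosed R]
      (K : Type) [Field K] [Algebra R K] (n : ℕ) (x : Fin n → K), IsTranscendenceBasis R x →
      ∀ (q : ℕ) (g : Fin q → K), ∑ l, g l ^ 2 = -1 →
      ∀ (I J : Type) [Fintype I] [Fintype J] (w : I → ℕ), (∀ i, 0 < w i) →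
      ∀ d : J → ℕ, (∀ j, 0 < d j) → ∑ j, d j ^ n < ∑ i, w i ^ n →
      ∀ f : J → MvPolynomial I K, (∀ j, (f j).IsWeightedHomogeneous w (d j)) →
        ∃ v : I → K, v ≠ 0 ∧ ∀ j, MvPolynomial.eval v (f j) = 0) ∧
    (∀ (R : Type) [Field R] [LinearOrder R] [IsStrictOrderedRing R] [IsRealClosed R]
      (K : Type) [Field K] [Algebra R K] (n : ℕ) (x : Fin n → K), IsTranscendenceBasis R x →
      ∀ (q : ℕ) (g : Fin q → K), ∑ l, g l ^ 2 = -1 →
      ∀ (N d : ℕ), 0 < d → d ^ n ≤ N → ∀ f : MvPolynomial (Fin (N + 1)) K, f.IsHomogeneous d →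
        ∃ v : Fin (N + 1) → K, v ≠ 0 ∧ MvPolynomial.eval v f = 0) := by
  refine ⟨?_, ?_⟩
  · intro R _ _ _ _ K _ _ n x hx q g hg I J _ _ w hw d hd hN f hf
    exact Pool.Agent.Helper716_Lang.lang_weighted hx g hg w hw d hd hN f hf
  · intro R _ _ _ _ K _ _ n x hx q g hg N d hd hN f hf
    obtain ⟨v, hv, hv2⟩ := Pool.Agent.Helper716_Lang.lang hx g hg (J := Unit) (fun _ => d)
      (fun _ => hd) (by simpa using Nat.lt_succ_of_le hN) (fun _ => f) (fun _ => hf)
    exact ⟨v, hv, hv2 ()⟩

end Pool.Agent.Results.MP_3d4eef_ag.SystemsRealClosed
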